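import Pool.Agent.W355.UN.Stm

/-!
# UN-GAM: `Gammaℝ` has order less than two in the right half plane
-/

set_option autoImplicit false

open Complex Filter Topology MeasureTheory

namespace Pool.Agent.W215.UN

theorem norm_Gamma_le (z : ℂ) (hz : 0 < z.re) : ‖Complex.Gamma z‖ ≤ Real.Gamma z.re := by
  rw [Complex.Gamma_eq_integral hz, Real.Gamma_eq_integral hz, Complex.GammaIntegral]
  refine (norm_integral_le_integral_norm _).trans (le_of_eq ?_)
  apply setIntegral_congr_fun measurableSet_Ioi
  intro x hx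
  have hx' : (0 : ℝ) < x := hx
  simp only [norm_mul]
  rw [Complex.norm_cpow_eq_rpow_re_of_pos hx']
  congr 1
  · rw [Complex.norm_real, Real.norm_eq_abs, abs_of_pos (Real.exp_pos _)]

theorem gamma_growth (δ : ℝ) (hδ : 0 < δ) :
    ∃ C : ℝ, 0 < C ∧ ∀ x : ℝ, 3 / 4 ≤ x → Real.Gamma x ≤ C * Real.exp (δ * x ^ 2) := by
  set X0 : ℝ := 1 / δ ^ 2 + 1 with hX0
  have hX0' : 1 < X0 := by
    have : 0 < 1 / δ ^ 2 := by positivity
    linarith
  have hcont : ContinuousOn (fun x : ℝ => Real.Gamma x) (Set.Icc (3 / 4) (X0 + 1)) := by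
    intro x hx
    apply ContinuousAt.continuousWithinAt
    apply (Real.differentiableAt_Gamma _).continuousAt
    intro m h
    have h1 := hx.1
    have h2 : (0 : ℝ) ≤ m := Nat.cast_nonneg m
    linarith
  obtain ⟨C, hC⟩ := isCompact_Icc.exists_bound_of_continuousOn hcont
  set C' : ℝ := max C 1 with hC'
  have hC1 : 1 ≤ C' := le_max_right _ _
  have hCC : C ≤ C' := le_max_left _ _
  refine ⟨C', by linarith, ?_⟩
  have key : ∀ n : ℕ, ∀ x : ℝ, 3 / 4 ≤ x → x ≤ X0 + 1 + n →
      Real.Gamma x ≤ C' * Real.exp (δ * x ^ 2) := by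
    intro n
    induction n with
    | zero =>
      intro x h1 h2
      have h3 := hC x ⟨h1, by simpa using h2⟩
      have h4 : Real.Gamma x ≤ C' := ((le_abs_self _).trans h3).trans hCC
      have h5 : 1 ≤ Real.exp (δ * x ^ 2) := Real.one_le_exp (by positivity)
      nlinarith
    | succ n ih =>
      intro x h1 h2
      push_cast at h2
      rcases le_or_gt x (X0 + 1 + n) with h3 | h3
      · exact ih x h1 h3
      · have hn : (0 : ℝ) ≤ n := Nat.cast_nonneg n
        have h4 : X0 < x - 1 := by linarith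
        have h5 : Real.Gamma x = (x - 1) * Real.Gamma (x - 1) := by
          have := Real.Gamma_add_one (s := x - 1) (by linarith)
          rwa [sub_add_cancel] at this
        have h6 := ih (x - 1) (by linarith) (by linarith)
        have h7 : x - 1 ≤ Real.exp (2 * δ * (x - 1)) := by
          have h8 : δ * (x - 1) ≤ Real.exp (δ * (x - 1)) := by
            have := Real.add_one_le_exp (δ * (x - 1))
            linarith
          have h9 : Real.exp (2 * δ * (x - 1)) = Real.exp (δ * (x - 1)) ^ 2 := by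
            rw [← Real.exp_nat_mul]
            congr 1
            push_cast
            ring
          rw [h9]
          have h10 : 0 ≤ δ * (x - 1) := by
            apply mul_nonneg hδ.le
            linarith
          have h11 : (δ * (x - 1)) ^ 2 ≤ Real.exp (δ * (x - 1)) ^ 2 :=
            pow_le_pow_left₀ h10 h8 2
          refine le_trans ?_ h11
          have h12 : 1 / δ ^ 2 ≤ x - 1 := by linarith
          have h13 : 1 ≤ δ ^ 2 * (x - 1) := by
            rw [div_le_iff₀ (by positivity)] at h12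
            linarith
          nlinarith
        rw [h5]
        have h14 : δ * x ^ 2 = 2 * δ * (x - 1) + δ + δ * (x - 1) ^ 2 := by ring
        rw [h14, Real.exp_add, Real.exp_add]
        have h15 : 1 ≤ Real.exp δ := Real.one_le_exp hδ.le
        have h16 : 0 ≤ Real.Gamma (x - 1) := Real.Gamma_nonneg_of_nonneg (by linarith)
        have h17 : 0 < Real.exp (2 * δ * (x - 1)) := Real.exp_pos _
        have h18 : 0 < Real.exp (δ * (x - 1) ^ 2) := Real.exp_pos _
        calc (x - 1) * Real.Gamma (x - 1)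
            ≤ Real.exp (2 * δ * (x - 1)) * (C' * Real.exp (δ * (x - 1) ^ 2)) :=
              mul_le_mul h7 h6 h16 h17.le
          _ ≤ Real.exp (2 * δ * (x - 1)) * Real.exp δ * (C' * Real.exp (δ * (x - 1) ^ 2)) := by
              apply mul_le_mul_of_nonneg_right _ (by positivity)
              nlinarith
          _ = C' * (Real.exp (2 * δ * (x - 1)) * Real.exp δ * Real.exp (δ * (x - 1) ^ 2)) := by
              ring
  intro x hx
  obtain ⟨n, hn⟩ := exists_nat_ge x
  exact key n x hx (by linarith)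

theorem gam : Pool.Agent.W355.UN.S_GAM := by
  intro a ha δ hδ
  obtain ⟨C, hC, hG⟩ := gamma_growth δ hδ
  refine ⟨C * Real.exp (δ * ‖a‖ ^ 2 / 2), by positivity, ?_⟩
  intro s hs
  have hre : ((s + a) / 2).re = (s.re + a.re) / 2 := by
    have : ((s + a) / 2) = (((1 / 2 : ℝ)) : ℂ) * (s + a) := by
      push_cast
      ring
    rw [this, Complex.re_ofReal_mul, Complex.add_re]
    ring
  have hx : 3 / 4 ≤ ((s + a) / 2).re := by
    rw [hre]
    linarith
  have hneg : (-(s + a) / 2).re = -((s + a) / 2).re := by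
    rw [neg_div, Complex.neg_re]
  rw [Complex.Gammaℝ_def, norm_mul, Complex.norm_cpow_eq_rpow_re_of_pos Real.pi_pos, hneg]
  have h1 : Real.pi ^ (-((s + a) / 2).re) ≤ 1 := by
    apply Real.rpow_le_one_of_one_le_of_nonpos
    · linarith [Real.pi_gt_three]
    · linarith
  have h2 := norm_Gamma_le ((s + a) / 2) (by linarith)
  have h3 := hG _ hx
  have h4 : ((s + a) / 2).re ^ 2 ≤ ‖a‖ ^ 2 / 2 + ‖s‖ ^ 2 := by
    have h5 : ((s + a) / 2).re ≤ (‖s‖ + ‖a‖) / 2 := by
      rw [hre]
      have := Complex.re_le_norm s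
      have := Complex.re_le_norm a
      linarith
    have h6 : ((s + a) / 2).re ^ 2 ≤ ((‖s‖ + ‖a‖) / 2) ^ 2 :=
      pow_le_pow_left₀ (by linarith) h5 2
    nlinarith [sq_nonneg (‖s‖ - ‖a‖), sq_nonneg ‖s‖, sq_nonneg ‖a‖]
  calc Real.pi ^ (-((s + a) / 2).re) * ‖Complex.Gamma ((s + a) / 2)‖
      ≤ 1 * (C * Real.exp (δ * ((s + a) / 2).re ^ 2)) :=
        mul_le_mul h1 (h2.trans h3) (norm_nonneg _) zero_le_one
    _ ≤ C * Real.exp (δ * (‖a‖ ^ 2 / 2 + ‖s‖ ^ 2)) := by
        rw [one_mul]
        apply mul_le_mul_of_nonneg_left _ hC.le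
        apply Real.exp_le_exp.mpr
        exact mul_le_mul_of_nonneg_left h4 hδ.le
    _ = C * Real.exp (δ * ‖a‖ ^ 2 / 2) * Real.exp (δ * ‖s‖ ^ 2) := by
        rw [mul_assoc, ← Real.exp_add]
        congr 2
        ring

end Pool.Agent.W215.UN
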